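import Mathlib
import Pool.Agent.Lib.helper18.Chaos
import Pool.Agent.Lib.helper18.Sand

namespace Pool.Agent.Results.MP_9297ae_an.Chaos

open Filter Topology Real Pool.Agent.Lib.helper18.Chaos Pool.Agent.Lib.helper18.Sand

theorem result : ∃ (B : ℝ) (x : ℕ → ℝ), 0 < B ∧ (∀ n, 0 < x n) ∧
    (∀ n, x (n + 3) = x n / (B * x (n + 2) + x n)) ∧
    ¬ Tendsto x atTop (𝓝 (1 / (B + 1))) ∧
    ∀ (p : ℕ → ℝ) (k : ℕ), 1 ≤ k → (∀ n, p (n + k) = p n) →
      ¬ Tendsto (fun n => x n - p n) atTop (𝓝 0) := by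
  set L : ℝ := 2 * 10 ^ 7
  obtain ⟨z, -, -, -, hpos, hrec, hbd, hap⟩ := chaos L le_rfl (fun w _ u => exp (-L) + w / u)
    (by fun_prop (disch := intro; positivity)) (fun w v u hw hv hu => by positivity)
    (fun w v u hw hv hu => by
      have hw0 := (exp_pos _).trans_le hw.1
      have hu0 := (exp_pos _).trans_le hu.1
      have := sand (exp_pos (-L)) hw0 hu0 le_rfl (by nlinarith [exp_pos (-L)]) le_rfl (by linarith)
      rwa [add_div, mul_div_cancel_right₀ _ hu0.ne'] at this)
  have key : ∀ (p : ℕ → ℝ) (k : ℕ), 1 ≤ k → (∀ n, p (n + k) = p n) →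
      ¬ Tendsto (fun n => 1 / (exp L * z n) - p n) atTop (𝓝 0) := by
    intro p k hk hp h
    apply hap k hk
    have h1 := diff_of_per (fun n => 1 / (exp L * z n)) p k hp h
    have h2 : Tendsto (fun n => exp L * exp (8 * L) * exp (8 * L) *
        |1 / (exp L * z (n + k)) - 1 / (exp L * z n)|) atTop (𝓝 0) := by
      simpa using h1.abs.const_mul (exp L * exp (8 * L) * exp (8 * L))
    refine squeeze_zero_norm (fun n => ?_) h2
    have a := hpos n
    have b := hpos (n + k)
    have e : z (n + k) - z n = -(exp L * z n * z (n + k)) *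
        (1 / (exp L * z (n + k)) - 1 / (exp L * z n)) := by field_simp; ring
    rw [e, norm_mul, norm_neg, Real.norm_of_nonneg (by positivity), Real.norm_eq_abs]
    gcongr
    · exact hbd _
    · exact hbd _
  refine ⟨exp L, fun n => 1 / (exp L * z n), exp_pos _, fun n => by have := hpos n; positivity,
    fun n => ?_, fun h => key (fun _ => 1 / (exp L + 1)) 1 le_rfl (fun _ => rfl)
      (tendsto_sub_nhds_zero_iff.2 h), key⟩
  have a := hpos n
  have b := hpos (n + 2)
  simp only []
  rw [hrec, exp_neg]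
  field_simp
  ring

end Pool.Agent.Results.MP_9297ae_an.Chaos
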